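import Pool.Agent.H268R2.LB.Count

/-! Bounds for the order of the group, from the minimum degree and from the number of edges. -/

set_option autoImplicit false

open Finset

namespace Pool.Agent.H268R2.LB

variable {V : Type*} {G : SimpleGraph V} {A : Type*} [Group A] [MulAction A V]

/-- An alternating law with `2 L` letters out of `N`. -/
def AltLaw (A : Type*) [Group A] (N L : ℕ) : Prop :=
  1 ≤ L ∧ ∃ i : ℕ → Fin N, (∀ j, j + 1 < 2 * L → i j ≠ i (j + 1)) ∧
    ∀ g : Fin N → A,
      ((List.range L).map fun j => g (i (2 * j)) * (g (i (2 * j + 1)))⁻¹).prod = 1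

theorem card_mul_le [Fintype V] [Fintype A] {M : ℕ}
    (hg : ∀ (v : V) (p : G.Walk v v), p.IsCycle → M < p.length)
    (hG : ∀ (a : A) (x y : V), G.Adj x y → G.Adj (a • x) (a • y))
    (hfree : ∀ (a : A) (x : V), a • x = x → a = 1)
    {N L : ℕ} (law : AltLaw A N L) {R : ℕ} (hR : 2 * L * R ≤ M) {v : V} {E : Finset V}
    (hE : ∀ y ∈ E, Reach G R v y) :
    Fintype.card A * E.card ≤ (2 * (N - 1)) ^ (Nat.size R) * Fintype.card V := by
  classical
  obtain ⟨hL, i, hi, hlaw⟩ := law
  have h1 : ∀ w : V, #{a : A | a • w ∈ E} ≤ (2 * (N - 1)) ^ (Nat.size R) := by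
    intro w
    refine orbit_bound hg hG hfree i hi hL hlaw R hR v w _ ?_
    intro a ha
    rw [mem_filter] at ha
    exact hE _ ha.2
  have h2 : ∀ a : A, #{w : V | a • w ∈ E} = E.card := by
    intro a
    refine card_bij' (fun w _ => a • w) (fun y _ => a⁻¹ • y) ?_ ?_ ?_ ?_
    · intro w hw
      simpa using hw
    · intro y hy
      simpa using hy
    · intro w _
      simp
    · intro y _
      simp
  calc Fintype.card A * E.card = ∑ a : A, #{w : V | a • w ∈ E} := by
        rw [sum_congr rfl (fun a _ => h2 a)]; simp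
    _ = ∑ w : V, #{a : A | a • w ∈ E} := by
        have := sum_card_bipartiteAbove_eq_sum_card_bipartiteBelow
          (s := (univ : Finset A)) (t := (univ : Finset V)) (fun a w => a • w ∈ E)
        simpa [bipartiteAbove, bipartiteBelow] using this
    _ ≤ ∑ _w : V, (2 * (N - 1)) ^ (Nat.size R) := sum_le_sum fun w _ => h1 w
    _ = _ := by simp [mul_comm]

open Classical in
theorem min_degree_bound [Fintype V] [Nonempty V] [Fintype A] {M : ℕ}
    (hg : ∀ (v : V) (p : G.Walk v v), p.IsCycle → M < p.length)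
    (hG : ∀ (a : A) (x y : V), G.Adj x y → G.Adj (a • x) (a • y))
    (hfree : ∀ (a : A) (x : V), a • x = x → a = 1)
    {N L : ℕ} (law : AltLaw A N L) {R : ℕ} (hR : 2 * L * R ≤ M) {δ : ℕ}
    (hδ : ∀ x, δ ≤ #{y | G.Adj x y}) :
    Fintype.card A * (δ - 1) ^ R ≤ (2 * (N - 1)) ^ (Nat.size R) * Fintype.card V := by
  obtain ⟨v⟩ := ‹Nonempty V›
  have hL := law.1
  obtain ⟨E, hE1, hE2⟩ := growth hg univ δ (by simpa using hδ) (mem_univ v) R
    ((Nat.mul_le_mul_right R (by omega : 2 ≤ 2 * L)).trans hR)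
  exact (Nat.mul_le_mul_left _ hE1).trans
    (card_mul_le hg hG hfree law hR (fun y hy => (hE2 y hy).2))

open Classical in
/-- A graph has a nonempty set of vertices in which all degrees exceed (edges)/(vertices). -/
theorem core [Fintype V] (G : SimpleGraph V) (he : 0 < G.edgeFinset.card) :
    ∃ W : Finset V, W.Nonempty ∧
      ∀ x ∈ W, G.edgeFinset.card < Fintype.card V * #{y ∈ W | G.Adj x y} := by
  set e := G.edgeFinset.card with hedef
  set n := Fintype.card V with hn
  -- number of ordered adjacent pairs in W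
  let P : Finset V → ℕ := fun W => ∑ x ∈ W, #{y ∈ W | G.Adj x y}
  let good : Finset V → Prop := fun W => W.Nonempty ∧ 2 * e * W.card ≤ n * P W
  have hne : (univ : Finset V).Nonempty := by
    rw [card_pos] at he
    obtain ⟨d, hd⟩ := he
    induction d using Sym2.ind with
    | _ a b => exact ⟨a, mem_univ _⟩
  have hP : P univ = 2 * e := by
    have := G.sum_degrees_eq_twice_card_edges
    rw [← this]
    refine sum_congr rfl fun x _ => ?_
    rw [← SimpleGraph.card_neighborFinset_eq_degree, SimpleGraph.neighborFinset_eq_filter]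
  have hgood : good univ := by
    refine ⟨hne, ?_⟩
    rw [hP, card_univ]
    exact (mul_comm _ _).le
  obtain ⟨W, hW, hmin⟩ := exists_min_image ((univ : Finset (Finset V)).filter good) card
    ⟨univ, by simp [hgood]⟩
  rw [mem_filter] at hW
  obtain ⟨-, hWne, hWe⟩ := hW
  refine ⟨W, hWne, fun x hx => ?_⟩
  by_contra hcon
  push Not at hcon
  have hPx : P W = P (W.erase x) + 2 * #{y ∈ W | G.Adj x y} := by
    have e1 : P W = #{y ∈ W | G.Adj x y} + ∑ z ∈ W.erase x, #{y ∈ W | G.Adj z y} := by
      simp only [P]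
      rw [← add_sum_erase _ _ hx]
    have e2 : ∑ z ∈ W.erase x, #{y ∈ W | G.Adj z y} =
        ∑ z ∈ W.erase x, (#{y ∈ W.erase x | G.Adj z y} + if G.Adj z x then 1 else 0) := by
      refine sum_congr rfl fun z _ => ?_
      rw [← insert_erase hx, filter_insert]
      split_ifs with h
      · rw [card_insert_of_notMem (by simp)]
        simp
      · simp
    rw [e1, e2, sum_add_distrib]
    have e3 : ∑ z ∈ W.erase x, (if G.Adj z x then 1 else 0) = #{y ∈ W | G.Adj x y} := by
      rw [sum_boole]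
      simp only [Nat.cast_id]
      congr 1
      ext z
      simp only [mem_filter, mem_erase]
      constructor
      · rintro ⟨⟨_, h1⟩, h2⟩
        exact ⟨h1, h2.symm⟩
      · rintro ⟨h1, h2⟩
        exact ⟨⟨fun h => G.loopless.irrefl _ (h ▸ h2), h1⟩, h2.symm⟩
    rw [e3]
    simp only [P]
    ring
  have hcardW : W.card = (W.erase x).card + 1 := by
    rw [card_erase_of_mem hx]
    have := card_pos.mpr hWne
    omega
  by_cases hemp : (W.erase x).Nonempty
  · have hg' : good (W.erase x) := by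
      refine ⟨hemp, ?_⟩
      rw [hPx, hcardW] at hWe
      nlinarith
    have := hmin (W.erase x) (by simp [hg'])
    omega
  · rw [not_nonempty_iff_eq_empty] at hemp
    rw [hPx, hcardW, hemp] at hWe
    simp only [card_empty, P, sum_empty] at hWe
    have hx0 : #{y ∈ W | G.Adj x y} = 0 := by
      rw [card_eq_zero, filter_eq_empty_iff]
      intro y hy hadj
      have : y ∈ W.erase x := mem_erase.mpr ⟨fun h => G.loopless.irrefl _ (h ▸ hadj), hy⟩
      rw [hemp] at this
      simp at this
    rw [hx0] at hWe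
    omega

open Classical in
theorem edges_bound [Fintype V] [Nonempty V] [Fintype A] {M : ℕ}
    (hg : ∀ (v : V) (p : G.Walk v v), p.IsCycle → M < p.length)
    (hG : ∀ (a : A) (x y : V), G.Adj x y → G.Adj (a • x) (a • y))
    (hfree : ∀ (a : A) (x : V), a • x = x → a = 1)
    {N L : ℕ} (law : AltLaw A N L) {R : ℕ} (hR : 2 * L * R ≤ M) :
    Fintype.card A * (G.edgeFinset.card / Fintype.card V) ^ R ≤
      (2 * (N - 1)) ^ (Nat.size R) * Fintype.card V := by
  have hL := law.1
  by_cases he : G.edgeFinset.card = 0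
  · rcases Nat.eq_zero_or_pos R with h0 | hpos
    · subst h0
      have h := min_degree_bound (δ := 0) hg hG hfree law hR (fun _ => Nat.zero_le _)
      simpa using h
    · rw [he, Nat.zero_div, zero_pow (by omega)]
      simp
  · obtain ⟨W, ⟨v, hv⟩, hW⟩ := core G (Nat.pos_of_ne_zero he)
    obtain ⟨E, hE1, hE2⟩ := growth hg W (G.edgeFinset.card / Fintype.card V + 1)
      (fun x hx => by
        have := hW x hx
        have h2 : G.edgeFinset.card / Fintype.card V < #{y ∈ W | G.Adj x y} :=
          Nat.div_lt_of_lt_mul this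
        omega) hv R ((Nat.mul_le_mul_right R (by omega : 2 ≤ 2 * L)).trans hR)
    rw [Nat.add_sub_cancel] at hE1
    exact (Nat.mul_le_mul_left _ hE1).trans
      (card_mul_le hg hG hfree law hR (fun y hy => (hE2 y hy).2))

theorem one_le_const {N R L : ℕ} (law : AltLaw A N L) : 1 ≤ (2 * (N - 1)) ^ (Nat.size R) := by
  obtain ⟨hL, i, hi, -⟩ := law
  have h : i 0 ≠ i 1 := hi 0 (by omega)
  have h2 : 2 ≤ N := by
    by_contra hlt
    have hN : N = 0 ∨ N = 1 := by omega
    rcases hN with h0 | h1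
    · subst h0; exact (i 0).elim0
    · subst h1; exact h (Subsingleton.elim _ _)
  exact Nat.one_le_pow _ _ (by omega)

open Classical in
/-- Real form: many edges. -/
theorem real_bound [Fintype V] [Nonempty V] [Fintype A] {k : ℕ}
    (hg : ∀ (v : V) (p : G.Walk v v), p.IsCycle → 2 * k < p.length)
    (hG : ∀ (a : A) (x y : V), G.Adj x y → G.Adj (a • x) (a • y))
    (hfree : ∀ (a : A) (x : V), a • x = x → a = 1)
    {N L : ℕ} (law : AltLaw A N L) {R : ℕ} (hk : 1 ≤ k) (hR : L * R ≤ k) {c : ℝ} (hc : 0 < c)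
    (he : c * (Fintype.card V : ℝ) ^ (1 + 1 / (k : ℝ)) ≤ (G.edgeFinset.card : ℝ)) :
    (Fintype.card A : ℝ) ≤ ((2 * (N - 1)) ^ (Nat.size R) : ℕ) * (2 / c) ^ R *
      (Fintype.card V : ℝ) ^ (1 - (R : ℝ) / (k : ℝ)) := by
  have hb := edges_bound hg hG hfree law (R := R) (by nlinarith)
  have hb0 := edges_bound hg hG hfree law (R := 0) (by omega)
  have hK := one_le_const (R := R) law
  set K := (2 * (N - 1)) ^ (Nat.size R) with hKdef
  set n := Fintype.card V with hn
  set t := Fintype.card A with ht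
  set e := G.edgeFinset.card with hedef
  have hnpos : 0 < n := Fintype.card_pos
  have hn0 : (0:ℝ) < n := by exact_mod_cast hnpos
  have hk0 : (0:ℝ) < k := by exact_mod_cast hk
  have hK0 : (1:ℝ) ≤ K := by exact_mod_cast hK
  have htn : (t : ℝ) ≤ n := by
    have : t ≤ n := by simpa using hb0
    exact_mod_cast this
  -- s = n^(1/k)
  set s : ℝ := (n : ℝ) ^ (1 / (k : ℝ)) with hs
  have hs0 : 0 < s := by positivity
  have hsR : s ^ R = (n : ℝ) ^ ((R : ℝ) / (k : ℝ)) := by
    rw [hs, ← Real.rpow_natCast, ← Real.rpow_mul hn0.le]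
    congr 1
    ring
  have hsplit : (n : ℝ) = (n : ℝ) ^ (1 - (R : ℝ) / (k : ℝ)) * s ^ R := by
    rw [hsR, ← Real.rpow_add hn0]
    simp
  have hes : c * (n * s) ≤ e := by
    have : (n : ℝ) ^ (1 + 1 / (k : ℝ)) = n * s := by
      rw [Real.rpow_add hn0, Real.rpow_one]
    rw [← this]; exact he
  have hpw : 0 < (n : ℝ) ^ (1 - (R : ℝ) / (k : ℝ)) := by positivity
  by_cases h1 : c * s < 1
  · -- few vertices
    have h2 : s ^ R ≤ (2 / c) ^ R := by
      refine pow_le_pow_left₀ hs0.le ?_ R
      rw [le_div_iff₀ hc]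
      linarith
    calc (t : ℝ) ≤ n := htn
      _ = (n : ℝ) ^ (1 - (R : ℝ) / (k : ℝ)) * s ^ R := hsplit
      _ ≤ (n : ℝ) ^ (1 - (R : ℝ) / (k : ℝ)) * (2 / c) ^ R := by gcongr
      _ = 1 * (2 / c) ^ R * (n : ℝ) ^ (1 - (R : ℝ) / (k : ℝ)) := by ring
      _ ≤ K * (2 / c) ^ R * (n : ℝ) ^ (1 - (R : ℝ) / (k : ℝ)) := by gcongr
  · push Not at h1
    have h3 : c * s / 2 ≤ ((e / n : ℕ) : ℝ) := by
      have h4 : (e : ℝ) < n * (((e / n : ℕ) : ℝ) + 1) := by
        have : e < n * (e / n + 1) := Nat.lt_mul_div_succ e hnpos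
        exact_mod_cast this
      have h5 : c * s < ((e / n : ℕ) : ℝ) + 1 := by
        have : n * (c * s) < n * (((e / n : ℕ) : ℝ) + 1) := by
          calc n * (c * s) = c * (n * s) := by ring
            _ ≤ e := hes
            _ < _ := h4
        exact lt_of_mul_lt_mul_left this hn0.le
      have h6 : (1:ℝ) ≤ ((e / n : ℕ) : ℝ) := by
        have h7 : 0 < e / n := by
          have : (n:ℝ) ≤ e := by
            calc (n:ℝ) = n * 1 := by ring
              _ ≤ n * (c * s) := by gcongr
              _ = c * (n * s) := by ring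
              _ ≤ e := hes
          have : n ≤ e := by exact_mod_cast this
          exact Nat.div_pos this hnpos
        exact_mod_cast h7
      linarith
    have h8 : (t : ℝ) * (c * s / 2) ^ R ≤ K * n := by
      calc (t : ℝ) * (c * s / 2) ^ R ≤ t * ((e / n : ℕ) : ℝ) ^ R := by gcongr
        _ ≤ K * n := by exact_mod_cast hb
    have h9 : (c * s / 2) ^ R = s ^ R / (2 / c) ^ R := by
      rw [← div_pow]
      congr 1
      field_simp
    rw [h9] at h8
    have h10 : (0:ℝ) < (2 / c) ^ R := by positivity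
    have h11 : 0 < s ^ R := by positivity
    have h12 : (t : ℝ) * s ^ R ≤ (K * (2 / c) ^ R * (n : ℝ) ^ (1 - (R : ℝ) / (k : ℝ))) * s ^ R := by
      calc (t : ℝ) * s ^ R = (t * (s ^ R / (2 / c) ^ R)) * (2 / c) ^ R := by
            field_simp
        _ ≤ (K * n) * (2 / c) ^ R := by gcongr
        _ = (K * ((n : ℝ) ^ (1 - (R : ℝ) / (k : ℝ)) * s ^ R)) * (2 / c) ^ R := by rw [← hsplit]
        _ = _ := by ring
    exact le_of_mul_le_mul_right h12 h11

end Pool.Agent.H268R2.LB
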