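import Pool.Agent.H268R2.LB.NW

/-! Counting the ends of nonbacktracking walks in one orbit of a group satisfying a law. -/

set_option autoImplicit false

open Finset

namespace Pool.Agent.H268R2.LB

variable {V : Type*} {G : SimpleGraph V}

/-- a nonbacktracking walk with `n` steps from `v` to `y` (`n = 0` allowed) -/
def Reach (G : SimpleGraph V) (n : ℕ) (v y : V) : Prop :=
  (n = 0 ∧ v = y) ∨ ∃ b c, NW G n v b c y

/-- `x 0, …, x R` is a nonbacktracking walk -/
def IsNB (G : SimpleGraph V) (R : ℕ) (x : ℕ → V) : Prop :=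
  (∀ i < R, G.Adj (x i) (x (i + 1))) ∧ (∀ i, i + 2 ≤ R → x i ≠ x (i + 2))

theorem Reach.exists_fun {n : ℕ} {v y : V} (h : Reach G n v y) :
    ∃ x : ℕ → V, x 0 = v ∧ x n = y ∧ IsNB G n x := by
  rcases h with ⟨rfl, rfl⟩ | ⟨b, c, h⟩
  · exact ⟨fun _ => v, rfl, rfl, fun i hi => by omega, fun i hi => by omega⟩
  · obtain ⟨x, h0, _, _, hn, hA, hN⟩ := h.exists_fun
    exact ⟨x, h0, hn, hA, hN⟩

theorem IsNB.reach {R : ℕ} {x : ℕ → V} (h : IsNB G R x) {i j : ℕ} (hij : i ≤ j) (hj : j ≤ R) :
    Reach G (j - i) (x i) (x j) := by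
  rcases Nat.lt_or_ge i j with hlt | hge
  · exact Or.inr ⟨_, _, NW.of_fun h.1 h.2 hlt hj⟩
  · have : i = j := le_antisymm hij hge
    subst this
    exact Or.inl ⟨by omega, rfl⟩

theorem IsNB.map {R : ℕ} {x : ℕ → V} (h : IsNB G R x) {f : V → V}
    (hf : ∀ x y, G.Adj x y → G.Adj (f x) (f y)) (hi : Function.Injective f) :
    IsNB G R (fun i => f (x i)) :=
  ⟨fun i hi' => hf _ _ (h.1 i hi'), fun i hi' he => h.2 i hi' (hi he)⟩

theorem IsNB.rev {R : ℕ} {x : ℕ → V} (h : IsNB G R x) : IsNB G R (fun i => x (R - i)) := by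
  refine ⟨fun i hi => ?_, fun i hi he => ?_⟩
  · have := (h.1 (R - (i + 1)) (by omega)).symm
    have e : R - (i + 1) + 1 = R - i := by omega
    rwa [e] at this
  · have := h.2 (R - (i + 2)) (by omega)
    have e : R - (i + 2) + 2 = R - i := by omega
    rw [e] at this
    exact this he.symm

theorem growth {M : ℕ} (hg : ∀ (v : V) (p : G.Walk v v), p.IsCycle → M < p.length)
    [DecidableEq V] [DecidableRel G.Adj] (W : Finset V) (δ : ℕ)
    (hW : ∀ x ∈ W, δ ≤ #{y ∈ W | G.Adj x y}) {v : V} (hv : v ∈ W) :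
    ∀ n, 2 * n ≤ M → ∃ E : Finset V, (δ - 1) ^ n ≤ E.card ∧ ∀ y ∈ E, y ∈ W ∧ Reach G n v y := by
  intro n
  induction n with
  | zero =>
    intro _
    exact ⟨{v}, by simp, by simp [hv, Reach]⟩
  | succ n ih =>
    intro hM
    obtain ⟨E, hE, hE'⟩ := ih (by omega)
    rcases Nat.eq_zero_or_pos n with h0 | hpos
    · subst h0
      refine ⟨{y ∈ W | G.Adj v y}, ?_, ?_⟩
      · have := hW v hv
        simp only [zero_add, pow_one]
        omega
      · intro y hy
        rw [mem_filter] at hy
        exact ⟨hy.1, Or.inr ⟨_, _, NW.one hy.2⟩⟩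
    · have hch : ∀ y ∈ E, ∃ b c, NW G n v b c y := by
        intro y hy
        rcases (hE' y hy).2 with ⟨h, _⟩ | h
        · omega
        · exact h
      choose! b c hbc using hch
      refine ⟨E.biUnion (fun y => {z ∈ W | G.Adj y z ∧ z ≠ c y}), ?_, ?_⟩
      · rw [card_biUnion]
        · calc (δ - 1) ^ (n + 1) ≤ E.card * (δ - 1) := by
                rw [pow_succ]; exact Nat.mul_le_mul_right _ hE
            _ = ∑ _y ∈ E, (δ - 1) := by simp
            _ ≤ _ := by
                refine sum_le_sum fun y hy => ?_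
                have h1 := hW y (hE' y hy).1
                have h2 : ({z ∈ W | G.Adj y z} : Finset V) ⊆
                    insert (c y) ({z ∈ W | G.Adj y z ∧ z ≠ c y} : Finset V) := by
                  intro z hz
                  rw [mem_filter] at hz
                  by_cases hzc : z = c y
                  · simp [hzc]
                  · simp [hz.1, hz.2, hzc]
                have h3 := card_le_card h2
                have h4 := card_insert_le (c y) ({z ∈ W | G.Adj y z ∧ z ≠ c y} : Finset V)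
                omega
        · intro y hy y' hy' hne
          rw [Function.onFun, Finset.disjoint_left]
          intro z hz hz'
          rw [mem_filter] at hz hz'
          have w1 := NW.step (hbc y hy) hz.2.1 (Ne.symm hz.2.2)
          have w2 := (NW.step (hbc y' hy') hz'.2.1 (Ne.symm hz'.2.2)).rev
          have w3 := NW.append w1 w2 hne
          exact no_closed hg w3 (by omega)
      · intro z hz
        rw [mem_biUnion] at hz
        obtain ⟨y, hy, hz⟩ := hz
        rw [mem_filter] at hz
        exact ⟨hz.1, Or.inr ⟨_, _, NW.step (hbc y hy) hz.2.1 (Ne.symm hz.2.2)⟩⟩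

theorem greedy {A X Y : Type*} [DecidableEq A] [DecidableEq X] [DecidableEq Y]
    (S : Finset A) (s : A → X) (l : A → Y) (B : ℕ)
    (hs : ∀ x, #{a ∈ S | s a = x} ≤ B) (hl : ∀ y, #{a ∈ S | l a = y} ≤ B) (N : ℕ)
    (hS : 2 * (N - 1) * B < S.card) :
    ∃ g : Fin N → A, (∀ k, g k ∈ S) ∧ (∀ k k', k ≠ k' → s (g k) ≠ s (g k')) ∧
      (∀ k k', k ≠ k' → l (g k) ≠ l (g k')) := by
  induction N with
  | zero => exact ⟨Fin.elim0, fun k => k.elim0, fun k => k.elim0, fun k => k.elim0⟩
  | succ N ih =>
    have hS' : 2 * (N - 1) * B < S.card :=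
      lt_of_le_of_lt (Nat.mul_le_mul_right _ (by omega)) hS
    obtain ⟨g, hgS, hgs, hgl⟩ := ih hS'
    let bad : Finset A := (univ : Finset (Fin N)).biUnion
      (fun k => ({a ∈ S | s a = s (g k)} : Finset A) ∪ {a ∈ S | l a = l (g k)})
    have hbad : bad.card ≤ 2 * N * B := by
      calc bad.card ≤ ∑ k : Fin N, #(({a ∈ S | s a = s (g k)} : Finset A) ∪ {a ∈ S | l a = l (g k)}) :=
            card_biUnion_le
        _ ≤ ∑ _k : Fin N, (B + B) := by
            refine sum_le_sum fun k _ => (card_union_le _ _).trans ?_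
            exact Nat.add_le_add (hs _) (hl _)
        _ = 2 * N * B := by
            simp; ring
    have hlt : bad.card < S.card := by
      refine lt_of_le_of_lt hbad ?_
      simpa using hS
    obtain ⟨a, haS, hab⟩ := exists_mem_notMem_of_card_lt_card hlt
    have hab' : ∀ k, s a ≠ s (g k) ∧ l a ≠ l (g k) := by
      intro k
      constructor
      · intro h
        exact hab (mem_biUnion.mpr ⟨k, mem_univ _, by simp [haS, h]⟩)
      · intro h
        exact hab (mem_biUnion.mpr ⟨k, mem_univ _, by simp [haS, h]⟩)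
    refine ⟨Fin.cons a g, ?_, ?_, ?_⟩
    · intro k
      refine Fin.cases ?_ ?_ k
      · simpa using haS
      · intro k; simpa using hgS k
    · intro k k'
      refine Fin.cases ?_ ?_ k
      · refine Fin.cases ?_ ?_ k'
        · intro h; exact absurd rfl h
        · intro k' _; simpa using (hab' k').1
      · intro k
        refine Fin.cases ?_ ?_ k'
        · intro _; simpa using (hab' k).1.symm
        · intro k' h
          simpa using hgs k k' (fun e => h (by rw [e]))
    · intro k k'
      refine Fin.cases ?_ ?_ k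
      · refine Fin.cases ?_ ?_ k'
        · intro h; exact absurd rfl h
        · intro k' _; simpa using (hab' k').2
      · intro k
        refine Fin.cases ?_ ?_ k'
        · intro _; simpa using (hab' k).2.symm
        · intro k' h
          simpa using hgl k k' (fun e => h (by rw [e]))

theorem first_diff {f g : ℕ → V} {p : ℕ} (h0 : f 0 = g 0) (hp : f p ≠ g p) :
    ∃ α < p, f α = g α ∧ f (α + 1) ≠ g (α + 1) := by
  induction p with
  | zero => exact absurd h0 hp
  | succ p ih =>
    by_cases h : f p = g p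
    · exact ⟨p, by omega, h, hp⟩
    · obtain ⟨α, hα, h1⟩ := ih h
      exact ⟨α, by omega, h1⟩

theorem extend {n R α j : ℕ} {s t : V} {f : ℕ → V} (hf : IsNB G R f)
    (h : NW G n s t (f α) (f (α + 1))) (hj : α + 1 ≤ j) (hjR : j ≤ R) :
    NW G (n + (j - α - 1)) s t (f (j - 1)) (f j) := by
  obtain ⟨k, rfl⟩ : ∃ k, j = α + 1 + k := ⟨j - (α + 1), by omega⟩
  clear hj
  induction k with
  | zero => simpa using h
  | succ k ih =>
    have h1 := ih (by omega)
    have h2 := NW.step h1 (hf.1 (α + 1 + k) (by omega)) (by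
      have := hf.2 (α + k) (by omega)
      have e1 : α + 1 + k - 1 = α + k := by omega
      have e2 : α + 1 + k + 1 = α + k + 2 := by omega
      rw [e1, e2]; exact this)
    have e3 : n + (α + 1 + k - α - 1) + 1 = n + (α + 1 + (k + 1) - α - 1) := by omega
    have e4 : α + 1 + (k + 1) - 1 = α + 1 + k := by omega
    rw [e3] at h2
    rw [e4]
    exact h2

theorem trans_step {n R α α' p K : ℕ} {s t : V} {f f' : ℕ → V} (hf : IsNB G R f)
    (hf' : IsNB G R f') (hp : 2 * p ≤ R + 1) (hα : α < p) (hα' : α' < p)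
    (h : NW G n s t (f α) (f (α + 1))) (hn : n ≤ K + α + 1)
    (heq : f (R - α') = f' α') (hne : f (R - α' - 1) ≠ f' (α' + 1)) :
    ∃ n', n' ≤ K + R + α' + 1 ∧ NW G n' s t (f' α') (f' (α' + 1)) := by
  have h1 := extend hf h (j := R - α') (by omega) (by omega)
  rw [heq] at h1
  have h2 := NW.step h1 (hf'.1 α' (by omega)) hne
  exact ⟨_, by omega, h2⟩

section action

variable {A : Type*} [Group A] [MulAction A V]

/-- The closed walk given by a law. -/
theorem law_walk (hG : ∀ (a : A) (x y : V), G.Adj x y → G.Adj (a • x) (a • y))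
    {N L R : ℕ} (i : ℕ → Fin N) (hi : ∀ j, j + 1 < 2 * L → i j ≠ i (j + 1)) (hL : 1 ≤ L)
    (hR : 1 ≤ R) (g : Fin N → A)
    (law : ((List.range L).map fun j => g (i (2 * j)) * (g (i (2 * j + 1)))⁻¹).prod = 1)
    (v w : V) (x : Fin N → ℕ → V) (hx : ∀ k, IsNB G R (x k)) (hx0 : ∀ k, x k 0 = v)
    (hxR : ∀ k, x k R = g k • w)
    (hs : ∀ k k', k ≠ k' → x k ((R + 1) / 2) ≠ x k' ((R + 1) / 2))
    (hl : ∀ k k', k ≠ k' → (g k)⁻¹ • x k (R - (R + 1) / 2) ≠ (g k')⁻¹ • x k' (R - (R + 1) / 2)) :
    ∃ (n : ℕ) (b c : V), n ≤ 2 * L * R ∧ NW G n v b c v := by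
  set p := (R + 1) / 2 with hp
  have hp2 : 2 * p ≤ R + 1 := by omega
  have hp1 : 1 ≤ p := by omega
  let c : ℕ → A := fun h => ((List.range h).map fun j => g (i (2 * j)) * (g (i (2 * j + 1)))⁻¹).prod
  have hc0 : c 0 = 1 := by simp [c]
  have hcs : ∀ h, c (h + 1) = c h * (g (i (2 * h)) * (g (i (2 * h + 1)))⁻¹) := by
    intro h
    simp [c, List.range_succ]
  have hinj : ∀ a : A, Function.Injective (fun x : V => a • x) := fun a => MulAction.injective a
  let Fe : ℕ → ℕ → V := fun h k => c h • x (i (2 * h)) k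
  let Fo : ℕ → ℕ → V := fun h k => c (h + 1) • x (i (2 * h + 1)) (R - k)
  have hFe : ∀ h, IsNB G R (Fe h) := fun h => (hx _).map (hG (c h)) (hinj _)
  have hFo : ∀ h, IsNB G R (Fo h) := fun h => (hx _).rev.map (hG (c (h + 1))) (hinj _)
  -- even to odd
  have heo : ∀ h K, h < L → (∃ n α, α < p ∧ n ≤ K + α + 1 ∧
      NW G n v (Fe 0 1) (Fe h α) (Fe h (α + 1))) →
      (∃ n α, α < p ∧ n ≤ K + R + α + 1 ∧ NW G n v (Fe 0 1) (Fo h α) (Fo h (α + 1))) := by
    intro h K hh ⟨n, α, hα, hn, hw⟩
    have hne : i (2 * h) ≠ i (2 * h + 1) := hi (2 * h) (by omega)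
    obtain ⟨β, hβ, hβ1, hβ2⟩ := first_diff
      (f := fun k => (g (i (2 * h)))⁻¹ • x (i (2 * h)) (R - k))
      (g := fun k => (g (i (2 * h + 1)))⁻¹ • x (i (2 * h + 1)) (R - k)) (p := p)
      (by simp [hxR]) (hl _ _ hne)
    obtain ⟨n', hn', hw'⟩ := trans_step (hFe h) (hFo h) hp2 hα hβ hw hn
      (by
        simp only [Fe, Fo]
        rw [hcs, mul_smul, mul_smul]
        congr 1
        rw [← hβ1, smul_inv_smul])
      (by
        simp only [Fe, Fo]
        rw [hcs, mul_smul, mul_smul]
        intro he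
        apply hβ2
        have := MulAction.injective _ he
        have e : R - β - 1 = R - (β + 1) := by omega
        rw [e] at this
        rw [this, inv_smul_smul])
    exact ⟨n', β, hβ, hn', hw'⟩
  -- odd to even
  have hoe : ∀ h K, h + 1 < L → (∃ n α, α < p ∧ n ≤ K + α + 1 ∧
      NW G n v (Fe 0 1) (Fo h α) (Fo h (α + 1))) →
      (∃ n α, α < p ∧ n ≤ K + R + α + 1 ∧
        NW G n v (Fe 0 1) (Fe (h + 1) α) (Fe (h + 1) (α + 1))) := by
    intro h K hh ⟨n, α, hα, hn, hw⟩
    have hne : i (2 * h + 1) ≠ i (2 * (h + 1)) := hi (2 * h + 1) (by omega)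
    obtain ⟨β, hβ, hβ1, hβ2⟩ := first_diff
      (f := x (i (2 * h + 1))) (g := x (i (2 * (h + 1)))) (p := p)
      (by simp [hx0]) (hs _ _ hne)
    obtain ⟨n', hn', hw'⟩ := trans_step (hFo h) (hFe (h + 1)) hp2 hα hβ hw hn
      (by
        simp only [Fe, Fo]
        have e : R - (R - β) = β := by omega
        rw [e, hβ1])
      (by
        simp only [Fe, Fo]
        have e : R - (R - β - 1) = β + 1 := by omega
        rw [e]
        intro he
        exact hβ2 (MulAction.injective _ he))
    exact ⟨n', β, hβ, hn', hw'⟩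
  have hmain : ∀ h, h < L → ∃ n α, α < p ∧ n ≤ 2 * h * R + α + 1 ∧
      NW G n v (Fe 0 1) (Fe h α) (Fe h (α + 1)) := by
    intro h
    induction h with
    | zero =>
      intro _
      refine ⟨1, 0, hp1, by omega, ?_⟩
      have h1 := NW.one (G := G) ((hFe 0).1 0 (by omega))
      have h2 : Fe 0 0 = v := by simp [Fe, hc0, hx0]
      rw [h2] at h1 ⊢
      exact h1
    | succ h ih =>
      intro hh
      have h1 := heo h _ (by omega) (ih (by omega))
      have h2 := hoe h _ hh h1
      obtain ⟨n, α, hα, hn, hw⟩ := h2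
      exact ⟨n, α, hα, by nlinarith, hw⟩
  obtain ⟨L', rfl⟩ : ∃ L', L = L' + 1 := ⟨L - 1, by omega⟩
  obtain ⟨n, α, hα, hn, hw⟩ := heo L' _ (by omega) (hmain L' (by omega))
  have h1 := extend (hFo L') hw (j := R) (by omega) (le_refl _)
  have h2 : Fo L' R = v := by
    have : c (L' + 1) = 1 := law
    simp [Fo, this, hx0]
  rw [h2] at h1
  have e : 2 * (L' + 1) * R = 2 * L' * R + 2 * R := by ring
  exact ⟨_, _, _, by omega, h1⟩

open Classical in
theorem orbit_bound {M : ℕ} (hg : ∀ (v : V) (p : G.Walk v v), p.IsCycle → M < p.length)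
    (hG : ∀ (a : A) (x y : V), G.Adj x y → G.Adj (a • x) (a • y))
    (hfree : ∀ (a : A) (x : V), a • x = x → a = 1)
    {N L : ℕ} (i : ℕ → Fin N) (hi : ∀ j, j + 1 < 2 * L → i j ≠ i (j + 1)) (hL : 1 ≤ L)
    (law : ∀ g : Fin N → A,
      ((List.range L).map fun j => g (i (2 * j)) * (g (i (2 * j + 1)))⁻¹).prod = 1) :
    ∀ R : ℕ, 2 * L * R ≤ M → ∀ (v w : V) (S : Finset A), (∀ a ∈ S, Reach G R v (a • w)) →
      S.card ≤ (2 * (N - 1)) ^ (Nat.size R) := by
  have hfree' : ∀ (a b : A) (x : V), a • x = b • x → a = b := by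
    intro a b x h
    have := hfree (b⁻¹ * a) x (by rw [mul_smul, h, inv_smul_smul])
    exact (inv_mul_eq_one.mp this).symm
  intro R
  induction R using Nat.strong_induction_on with
  | _ R ih =>
    intro hM v w S hS
    rcases Nat.eq_zero_or_pos R with h0 | hpos
    · subst h0
      simp only [Nat.size_zero, pow_zero]
      rw [card_le_one]
      intro a ha b hb
      rcases hS a ha with ⟨_, h1⟩ | ⟨_, _, h1⟩
      · rcases hS b hb with ⟨_, h2⟩ | ⟨_, _, h2⟩
        · exact hfree' a b w (by rw [← h1, ← h2])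
        · have := h2.pos; omega
      · have := h1.pos; omega
    · by_contra hcon
      push Not at hcon
      have hsz : Nat.size R = Nat.size (R / 2) + 1 := by
        rcases Nat.even_or_odd' R with ⟨k, hk | hk⟩
        · have hk0 : k ≠ 0 := by omega
          have : R / 2 = k := by omega
          rw [this, hk]
          have := Nat.size_bit (b := false) (n := k) (by simpa [Nat.bit] using hk0)
          simpa [Nat.bit] using this
        · have : R / 2 = k := by omega
          rw [this, hk]
          have := Nat.size_bit (b := true) (n := k) (by simp [Nat.bit])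
          simpa [Nat.bit] using this
      set p := (R + 1) / 2 with hp
      have hRp : R - p = R / 2 := by omega
      have hch : ∀ a ∈ S, ∃ x : ℕ → V, x 0 = v ∧ x R = a • w ∧ IsNB G R x :=
        fun a ha => (hS a ha).exists_fun
      haveI : Nonempty V := ⟨v⟩
      choose! x hx0 hxR hx using hch
      have hM' : 2 * L * (R / 2) ≤ M :=
        (Nat.mul_le_mul_left _ (Nat.div_le_self _ _)).trans hM
      have hlt : R / 2 < R := by omega
      obtain ⟨g, hgS, hgs, hgl⟩ := greedy S (fun a => x a p) (fun a => a⁻¹ • x a (R - p))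
        ((2 * (N - 1)) ^ (Nat.size (R / 2)))
        (by
          intro y
          refine ih (R / 2) hlt hM' y w _ ?_
          intro a ha
          rw [mem_filter] at ha
          have := (hx a ha.1).reach (i := p) (j := R) (by omega) le_rfl
          rw [hRp, hxR a ha.1, ha.2] at this
          exact this)
        (by
          intro u
          refine ih (R / 2) hlt hM' v u _ ?_
          intro a ha
          rw [mem_filter] at ha
          have := (hx a ha.1).reach (i := 0) (j := R - p) (by omega) (by omega)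
          rw [hx0 a ha.1, Nat.sub_zero, hRp] at this
          rw [← ha.2, smul_inv_smul, hRp]
          exact this)
        N (by
          rw [hsz, pow_succ] at hcon
          linarith)
      obtain ⟨n, b, c, hn, hw⟩ := law_walk hG i hi hL hpos g (law g) v w (fun k => x (g k))
        (fun k => hx _ (hgS k)) (fun k => hx0 _ (hgS k)) (fun k => hxR _ (hgS k))
        (fun k k' h => hgs k k' h) (fun k k' h => hgl k k' h)
      exact no_closed hg hw (hn.trans hM)

end action

end Pool.Agent.H268R2.LB
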