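import Pool.Agent.H268R2.LB.Laws

/-! A graph with girth 8 and a large free abelian group of automorphisms. -/

set_option autoImplicit false

open Finset

namespace Pool.Agent.H268R2.LB.Ex

variable (F : Type) [Field F]

/-- incidence of the point `(p₁,p₂,p₃)` and the line `[l₁,l₂,l₃]` -/
def Inc (P L : F × F × F) : Prop :=
  P.2.1 + L.2.1 = P.1 * L.1 ∧ P.2.2 + L.2.2 = P.1 * L.1 ^ 2

/-- points and lines -/
abbrev Vx : Type := (F × F × F) ⊕ (F × F × F)

/-- the incidence graph -/
def Gr : SimpleGraph (Vx F) where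
  Adj x y := match x, y with
    | Sum.inl P, Sum.inr L => Inc F P L
    | Sum.inr L, Sum.inl P => Inc F P L
    | _, _ => False
  symm := ⟨by
    intro x y h
    rcases x with P | L <;> rcases y with P' | L' <;> exact h⟩
  loopless := ⟨by
    intro x h
    rcases x with P | L <;> exact h⟩

theorem adj_lr (P L : F × F × F) : (Gr F).Adj (Sum.inl P) (Sum.inr L) ↔ Inc F P L := Iff.rfl
theorem adj_rl (P L : F × F × F) : (Gr F).Adj (Sum.inr L) (Sum.inl P) ↔ Inc F P L := Iff.rfl
theorem adj_ll (P P' : F × F × F) : ¬ (Gr F).Adj (Sum.inl P) (Sum.inl P') := fun h => h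
theorem adj_rr (L L' : F × F × F) : ¬ (Gr F).Adj (Sum.inr L) (Sum.inr L') := fun h => h

instance : MulAction (Multiplicative (F × F)) (Vx F) where
  smul a x := match x with
    | Sum.inl P => Sum.inl (P.1, P.2.1 + (Multiplicative.toAdd a).1, P.2.2 + (Multiplicative.toAdd a).2)
    | Sum.inr L => Sum.inr (L.1, L.2.1 - (Multiplicative.toAdd a).1, L.2.2 - (Multiplicative.toAdd a).2)
  one_smul x := by
    rcases x with P | L
    · change Sum.inl _ = _; simp
    · change Sum.inr _ = _; simp
  mul_smul a b x := by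
    rcases x with P | L
    · change Sum.inl _ = Sum.inl _
      congr 1
      ext
      · rfl
      · simp; ring
      · simp; ring
    · change Sum.inr _ = Sum.inr _
      congr 1
      ext
      · rfl
      · simp; ring
      · simp; ring

theorem smul_l (a : Multiplicative (F × F)) (P : F × F × F) :
    a • (Sum.inl P : Vx F) =
      Sum.inl (P.1, P.2.1 + (Multiplicative.toAdd a).1, P.2.2 + (Multiplicative.toAdd a).2) := rfl
theorem smul_r (a : Multiplicative (F × F)) (L : F × F × F) :
    a • (Sum.inr L : Vx F) =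
      Sum.inr (L.1, L.2.1 - (Multiplicative.toAdd a).1, L.2.2 - (Multiplicative.toAdd a).2) := rfl

theorem aut (a : Multiplicative (F × F)) (x y : Vx F) (h : (Gr F).Adj x y) :
    (Gr F).Adj (a • x) (a • y) := by
  rcases x with P | L <;> rcases y with P' | L'
  · exact absurd h (adj_ll F _ _)
  · rw [smul_l, smul_r, adj_lr]
    rw [adj_lr] at h
    obtain ⟨h1, h2⟩ := h
    exact ⟨by simp only; rw [← h1]; ring, by simp only; rw [← h2]; ring⟩
  · rw [smul_l, smul_r, adj_rl]
    rw [adj_rl] at h
    obtain ⟨h1, h2⟩ := h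
    exact ⟨by simp only; rw [← h1]; ring, by simp only; rw [← h2]; ring⟩
  · exact absurd h (adj_rr F _ _)

theorem free (a : Multiplicative (F × F)) (x : Vx F) (h : a • x = x) : a = 1 := by
  rcases x with P | L
  · rw [smul_l] at h
    have h' := Sum.inl.inj h
    obtain ⟨p1, p2, p3⟩ := P
    simp only [Prod.mk.injEq, true_and, add_eq_left] at h'
    apply Multiplicative.toAdd.injective
    ext
    · simpa using h'.1
    · simpa using h'.2
  · rw [smul_r] at h
    have h' := Sum.inr.inj h
    obtain ⟨p1, p2, p3⟩ := L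
    simp only [Prod.mk.injEq, true_and, sub_eq_self] at h'
    apply Multiplicative.toAdd.injective
    ext
    · simpa using h'.1
    · simpa using h'.2

/-- the first coordinate -/
def fst : Vx F → F
  | Sum.inl P => P.1
  | Sum.inr L => L.1

theorem inc_unique_P {P P' L : F × F × F} (h : Inc F P L) (h' : Inc F P' L) (he : P.1 = P'.1) :
    P = P' := by
  obtain ⟨h1, h2⟩ := h
  obtain ⟨h1', h2'⟩ := h'
  ext
  · exact he
  · have : P.2.1 + L.2.1 = P'.2.1 + L.2.1 := by rw [h1, h1', he]
    exact add_right_cancel this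
  · have : P.2.2 + L.2.2 = P'.2.2 + L.2.2 := by rw [h2, h2', he]
    exact add_right_cancel this

theorem inc_unique_L {P L L' : F × F × F} (h : Inc F P L) (h' : Inc F P L') (he : L.1 = L'.1) :
    L = L' := by
  obtain ⟨h1, h2⟩ := h
  obtain ⟨h1', h2'⟩ := h'
  ext
  · exact he
  · have : P.2.1 + L.2.1 = P.2.1 + L'.2.1 := by rw [h1, h1', he]
    exact add_left_cancel this
  · have : P.2.2 + L.2.2 = P.2.2 + L'.2.2 := by rw [h2, h2', he]
    exact add_left_cancel this

/-- no closed nonbacktracking sequences of length 4 starting at a point -/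
theorem no4 {P P' L L' : F × F × F} (h1 : Inc F P L) (h2 : Inc F P' L) (h3 : Inc F P' L')
    (h4 : Inc F P L') (hP : P ≠ P') (hL : L ≠ L') : False := by
  have hp : P.1 ≠ P'.1 := fun h => hP (inc_unique_P F h1 h2 h)
  have hl : L.1 ≠ L'.1 := fun h => hL (inc_unique_L F h1 h4 h)
  have : (P.1 - P'.1) * (L.1 - L'.1) = 0 := by
    linear_combination (-1) * h1.1 + h2.1 - h3.1 + h4.1
  rcases mul_eq_zero.mp this with h | h
  · exact hp (sub_eq_zero.mp h)
  · exact hl (sub_eq_zero.mp h)

theorem no6 {P P' P'' L L' L'' : F × F × F} (h1 : Inc F P L) (h2 : Inc F P' L) (h3 : Inc F P' L')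
    (h4 : Inc F P'' L') (h5 : Inc F P'' L'') (h6 : Inc F P L'')
    (hP1 : P ≠ P') (hL1 : L ≠ L') (hL3 : L'' ≠ L) : False := by
  have hp1 : P.1 ≠ P'.1 := fun h => hP1 (inc_unique_P F h1 h2 h)
  have hl1 : L.1 ≠ L'.1 := fun h => hL1 (inc_unique_L F h2 h3 h)
  have hl3 : L''.1 ≠ L.1 := fun h => hL3 (inc_unique_L F h6 h1 h)
  have e1 : (P.1 - P'.1) * L.1 + (P'.1 - P''.1) * L'.1 + (P''.1 - P.1) * L''.1 = 0 := by
    linear_combination (-1) * h1.1 + h2.1 - h3.1 + h4.1 - h5.1 + h6.1
  have e2 : (P.1 - P'.1) * L.1 ^ 2 + (P'.1 - P''.1) * L'.1 ^ 2 + (P''.1 - P.1) * L''.1 ^ 2 = 0 := by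
    linear_combination (-1) * h1.2 + h2.2 - h3.2 + h4.2 - h5.2 + h6.2
  have : (P.1 - P'.1) * ((L''.1 - L.1) * (L.1 - L'.1)) = 0 := by
    linear_combination (L'.1 + L''.1) * e1 - e2
  rcases mul_eq_zero.mp this with h | h
  · exact hp1 (sub_eq_zero.mp h)
  · rcases mul_eq_zero.mp h with h | h
    · exact hl3 (sub_eq_zero.mp h)
    · exact hl1 (sub_eq_zero.mp h)

/-- periodic form of a cycle -/
theorem cycle_fun {V : Type} {G : SimpleGraph V} {v : V} {w : G.Walk v v} (hw : w.IsCycle) :
    ∃ x : ℕ → V, (∀ i, G.Adj (x i) (x (i + 1))) ∧ (∀ i, x i ≠ x (i + 2)) ∧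
      ∀ i, x (i + w.length) = x i := by
  have h3 := hw.three_le_length
  set ℓ := w.length with hℓ
  refine ⟨fun i => w.getVert (i % ℓ), ?_, ?_, ?_⟩
  · intro i
    change G.Adj (w.getVert (i % ℓ)) (w.getVert ((i + 1) % ℓ))
    have hi : i % ℓ < ℓ := Nat.mod_lt _ (by omega)
    by_cases h : i % ℓ + 1 = ℓ
    · have e : (i + 1) % ℓ = 0 := by
        rw [Nat.add_mod, Nat.mod_eq_of_lt (by omega : 1 < ℓ), h, Nat.mod_self]
      rw [e]
      have := w.adj_getVert_succ (i := i % ℓ) hi
      rw [h, hℓ, SimpleGraph.Walk.getVert_length] at this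
      rw [SimpleGraph.Walk.getVert_zero]
      exact this
    · have e : (i + 1) % ℓ = i % ℓ + 1 := by
        rw [Nat.add_mod, Nat.mod_eq_of_lt (by omega : 1 < ℓ)]
        exact Nat.mod_eq_of_lt (by omega)
      rw [e]
      exact w.adj_getVert_succ hi
  · intro i h
    have hinj := hw.getVert_injOn'
    have hi : i % ℓ < ℓ := Nat.mod_lt _ (by omega)
    have hi' : (i + 2) % ℓ < ℓ := Nat.mod_lt _ (by omega)
    have := hinj (show i % ℓ ≤ ℓ - 1 by omega) (show (i + 2) % ℓ ≤ ℓ - 1 by omega) h
    have h5 : (i + 2) % ℓ = (i % ℓ + 2) % ℓ := by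
      rw [Nat.add_mod, Nat.mod_eq_of_lt (by omega : 2 < ℓ)]
    rw [h5] at this
    by_cases h6 : i % ℓ + 2 < ℓ
    · rw [Nat.mod_eq_of_lt h6] at this
      omega
    · have h7 : (i % ℓ + 2) % ℓ = i % ℓ + 2 - ℓ := by
        rw [Nat.mod_eq_sub_mod (by omega : ℓ ≤ i % ℓ + 2), Nat.mod_eq_of_lt (by omega)]
      rw [h7] at this
      omega
  · intro i
    simp

theorem girth (v : Vx F) (w : (Gr F).Walk v v) (hw : w.IsCycle) : 6 < w.length := by
  obtain ⟨x, hA, hN, hper⟩ := cycle_fun hw
  have h3 := hw.three_le_length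
  -- sides alternate
  have side : ∀ i, (x i).isLeft = !(x (i + 1)).isLeft := by
    intro i
    have := hA i
    rcases h1 : x i with P | L <;> rcases h2 : x (i + 1) with P' | L' <;> rw [h1, h2] at this
    · exact absurd this (adj_ll F _ _)
    · rfl
    · rfl
    · exact absurd this (adj_rr F _ _)
  -- shift to start at a point
  obtain ⟨x, hA, hN, hper, side, hl⟩ : ∃ x : ℕ → Vx F, (∀ i, (Gr F).Adj (x i) (x (i + 1))) ∧
      (∀ i, x i ≠ x (i + 2)) ∧ (∀ i, x (i + w.length) = x i) ∧
      (∀ i, (x i).isLeft = !(x (i + 1)).isLeft) ∧ (x 0).isLeft = true := by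
    cases h : (x 0).isLeft
    · refine ⟨fun i => x (i + 1), fun i => hA (i + 1), fun i => ?_, fun i => ?_,
        fun i => side (i + 1), ?_⟩
      · have := hN (i + 1)
        rwa [show i + 1 + 2 = i + 2 + 1 by ring] at this
      · have := hper (i + 1)
        rwa [show i + 1 + w.length = i + w.length + 1 by ring] at this
      · have := side 0
        rw [h] at this
        simp only [zero_add] at this ⊢
        cases h2 : (x 1).isLeft
        · rw [h2] at this; simp at this
        · rfl
    · exact ⟨x, hA, hN, hper, side, h⟩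
  have hs1 : (x 1).isLeft = false := by have := side 0; rw [hl] at this; simpa using this
  have hs2 : (x 2).isLeft = true := by have := side 1; rw [hs1] at this; simpa using this
  have hs3 : (x 3).isLeft = false := by have := side 2; rw [hs2] at this; simpa using this
  have hs4 : (x 4).isLeft = true := by have := side 3; rw [hs3] at this; simpa using this
  have hs5 : (x 5).isLeft = false := by have := side 4; rw [hs4] at this; simpa using this
  by_contra hlt
  have hc : w.length = 3 ∨ w.length = 4 ∨ w.length = 5 ∨ w.length = 6 := by omega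
  obtain ⟨P0, hP0⟩ := Sum.isLeft_iff.mp hl
  obtain ⟨L1, hL1⟩ := Sum.isRight_iff.mp (Sum.isLeft_eq_false.mp hs1)
  obtain ⟨P2, hP2⟩ := Sum.isLeft_iff.mp hs2
  obtain ⟨L3, hL3⟩ := Sum.isRight_iff.mp (Sum.isLeft_eq_false.mp hs3)
  obtain ⟨P4, hP4⟩ := Sum.isLeft_iff.mp hs4
  obtain ⟨L5, hL5⟩ := Sum.isRight_iff.mp (Sum.isLeft_eq_false.mp hs5)
  have i01 : Inc F P0 L1 := by have := hA 0; rw [hP0, zero_add, hL1] at this; exact this
  have i21 : Inc F P2 L1 := by have := hA 1; rw [hL1, hP2] at this; exact this
  have i23 : Inc F P2 L3 := by have := hA 2; rw [hP2, hL3] at this; exact this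
  have i43 : Inc F P4 L3 := by have := hA 3; rw [hL3, hP4] at this; exact this
  have i45 : Inc F P4 L5 := by have := hA 4; rw [hP4, hL5] at this; exact this
  have n02 : P0 ≠ P2 := by
    have := hN 0; rw [hP0, zero_add, hP2] at this; exact fun h => this (by rw [h])
  have n13 : L1 ≠ L3 := by
    have := hN 1; rw [hL1, hL3] at this; exact fun h => this (by rw [h])
  rcases hc with h | h | h | h
  · have := hper 0
    rw [h, zero_add, hL3, hP0] at this
    cases this
  · have h4 := hper 0
    rw [h, zero_add, hP4, hP0] at h4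
    have h4' := Sum.inl.inj h4
    rw [h4'] at i43
    exact no4 F i01 i21 i23 i43 n02 n13
  · have := hper 0
    rw [h, zero_add, hL5, hP0] at this
    cases this
  · have h6 := hper 0
    rw [h, zero_add] at h6
    have i05 : Inc F P0 L5 := by have := hA 5; rw [hL5, h6, hP0] at this; exact this
    have n51 : L5 ≠ L1 := by
      have h7 := hper 1
      rw [h] at h7
      have := hN 5
      rw [hL5, show 5 + 2 = 1 + 6 by norm_num, h7, hL1] at this
      exact fun h => this (by rw [h])
    exact no6 F i01 i21 i23 i43 i45 i05 n02 n13 n51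

open Classical in
theorem edges [Fintype F] : (Gr F).edgeFinset.card = Fintype.card F ^ 4 := by
  have hdeg : ∀ x : Vx F, (Gr F).degree x = Fintype.card F := by
    intro x
    rw [← SimpleGraph.card_neighborFinset_eq_degree]
    rcases x with P | L
    · have : (Gr F).neighborFinset (Sum.inl P) = (univ : Finset F).image
          (fun l => (Sum.inr (l, P.1 * l - P.2.1, P.1 * l ^ 2 - P.2.2) : Vx F)) := by
        ext y
        rw [SimpleGraph.mem_neighborFinset, mem_image]
        constructor
        · intro h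
          rcases y with P' | L
          · exact absurd h (adj_ll F _ _)
          · refine ⟨L.1, mem_univ _, ?_⟩
            rw [adj_lr] at h
            congr 1
            ext
            · rfl
            · simp only; rw [← h.1]; ring
            · simp only; rw [← h.2]; ring
        · rintro ⟨l, _, rfl⟩
          rw [adj_lr]
          exact ⟨by simp only; ring, by simp only; ring⟩
      rw [this, card_image_of_injective, card_univ]
      intro a b hab
      have := Sum.inr.inj hab
      exact (Prod.mk.inj this).1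
    · have : (Gr F).neighborFinset (Sum.inr L) = (univ : Finset F).image
          (fun p => (Sum.inl (p, p * L.1 - L.2.1, p * L.1 ^ 2 - L.2.2) : Vx F)) := by
        ext y
        rw [SimpleGraph.mem_neighborFinset, mem_image]
        constructor
        · intro h
          rcases y with P | L'
          · refine ⟨P.1, mem_univ _, ?_⟩
            rw [adj_rl] at h
            congr 1
            ext
            · rfl
            · simp only; rw [← h.1]; ring
            · simp only; rw [← h.2]; ring
          · exact absurd h (adj_rr F _ _)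
        · rintro ⟨p, _, rfl⟩
          rw [adj_rl]
          exact ⟨by simp only; ring, by simp only; ring⟩
      rw [this, card_image_of_injective, card_univ]
      intro a b hab
      have := Sum.inl.inj hab
      exact (Prod.mk.inj this).1
  have h := (Gr F).sum_degrees_eq_twice_card_edges
  rw [Finset.sum_congr rfl (fun x _ => hdeg x), sum_const, card_univ, Fintype.card_sum,
    Fintype.card_prod, Fintype.card_prod] at h
  simp only [smul_eq_mul] at h
  have e : Fintype.card F ^ 4 * 2 = 2 * (Gr F).edgeFinset.card := by rw [← h]; ring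
  omega

/-- The example. -/
theorem example_exists (p : ℕ) (hp : p.Prime) :
    ∃ (V : Type) (_ : Fintype V) (G : SimpleGraph V) (_ : DecidableRel G.Adj) (A : Type)
      (_ : CommGroup A) (_ : Fintype A) (_ : MulAction A V),
      Fintype.card V = 2 * p ^ 3 ∧ G.edgeFinset.card = p ^ 4 ∧ Fintype.card A = p ^ 2 ∧
      (∀ (v : V) (w : G.Walk v v), w.IsCycle → 6 < w.length) ∧
      (∀ (a : A) (x y : V), G.Adj x y → G.Adj (a • x) (a • y)) ∧
      (∀ (a : A) (x : V), a • x = x → a = 1) := by
  classical
  have : Fact p.Prime := ⟨hp⟩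
  refine ⟨Vx (ZMod p), inferInstance, Gr (ZMod p), Classical.decRel _,
    Multiplicative (ZMod p × ZMod p), inferInstance, inferInstance, inferInstance, ?_, ?_, ?_,
    girth (ZMod p), aut (ZMod p), free (ZMod p)⟩
  · rw [Fintype.card_sum, Fintype.card_prod, Fintype.card_prod, ZMod.card]
    ring
  · have := edges (ZMod p)
    rw [ZMod.card] at this
    convert this
  · rw [Fintype.card_multiplicative, Fintype.card_prod, ZMod.card]
    ring

end Pool.Agent.H268R2.LB.Ex
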