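import Pool.Agent.H268R2.LB.Laws

/-! The three kinds of laws together. -/

set_option autoImplicit false

open Finset

namespace Pool.Agent.H268R2.LB

theorem altLaw_cases {A : Type} [Group A] {K L : ℕ}
    (h : (∃ (r : ℕ) (u : FreeGroup (Fin r)), u ≠ 1 ∧ (∀ g : Fin r → A, FreeGroup.lift g u = 1) ∧
        L = u.norm ∧ K = 4 * r - 2) ∨
      ((∀ a b : A, a * b = b * a) ∧ L = 3 ∧ K = 4) ∨ (1 ≤ L ∧ (∀ a : A, a ^ L = 1) ∧ K = 2)) :
    ∃ N, K = 2 * (N - 1) ∧ AltLaw A N L := by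
  rcases h with ⟨r, u, hu, hlaw, rfl, rfl⟩ | ⟨hA, rfl, rfl⟩ | ⟨hL, hA, rfl⟩
  · exact ⟨2 * r, by omega, altLaw_word u hu hlaw⟩
  · exact ⟨3, rfl, altLaw_comm hA⟩
  · exact ⟨2, rfl, altLaw_exponent hL hA⟩

/-- From the bound for `R = ⌊(g - 1) / (2 L)⌋` to a power of the number of vertices. -/
theorem power_form {a n K δ g L : ℕ} (hL : 1 ≤ L) (hδ : 3 ≤ δ) (hg : 1 ≤ g) (hn : 1 ≤ n)
    (h : a * (δ - 1) ^ ((g - 1) / (2 * L)) ≤ K ^ Nat.size ((g - 1) / (2 * L)) * n) {γ : ℝ}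
    (hγ : 0 < γ) (hsmall : (n : ℝ) ≤ ((δ : ℝ) - 1) ^ (γ * g)) :
    (a : ℝ) ≤ (K : ℝ) ^ Nat.size ((g - 1) / (2 * L)) * ((δ : ℝ) - 1) *
      (n : ℝ) ^ (1 - 1 / (2 * L * γ)) := by
  set R := (g - 1) / (2 * L) with hR
  set D : ℝ := (δ : ℝ) - 1 with hD
  have hD2 : 2 ≤ D := by
    have : (3:ℝ) ≤ δ := by exact_mod_cast hδ
    rw [hD]; linarith
  have hD0 : 0 < D := by linarith
  have hn0 : (0:ℝ) < n := by exact_mod_cast hn
  have hL0 : (0:ℝ) < L := by exact_mod_cast hL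
  have hgR : g ≤ 2 * L * (R + 1) := by
    have h1 := Nat.div_add_mod (g - 1) (2 * L)
    have h2 := Nat.mod_lt (g - 1) (show 0 < 2 * L by omega)
    rw [← hR] at h1
    have h3 : 2 * L * (R + 1) = 2 * L * R + 2 * L := by ring
    omega
  have h1 : (n : ℝ) ^ (1 / (2 * L * γ)) ≤ D ^ (R + 1) := by
    have h2 : (n : ℝ) ≤ D ^ (γ * (2 * L * (R + 1))) := by
      refine hsmall.trans (Real.rpow_le_rpow_of_exponent_le (by linarith) ?_)
      have : (g : ℝ) ≤ 2 * L * (R + 1) := by exact_mod_cast hgR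
      exact mul_le_mul_of_nonneg_left this hγ.le
    calc (n : ℝ) ^ (1 / (2 * L * γ)) ≤ (D ^ (γ * (2 * L * (R + 1)))) ^ (1 / (2 * L * γ)) :=
          Real.rpow_le_rpow hn0.le h2 (by positivity)
      _ = D ^ (R + 1) := by
          rw [← Real.rpow_mul hD0.le, ← Real.rpow_natCast]
          congr 1
          push_cast
          field_simp
  have h2 : (a : ℝ) * D ^ R ≤ (K : ℝ) ^ Nat.size R * n := by
    have h3 : ((δ - 1 : ℕ) : ℝ) = D := by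
      rw [hD, Nat.cast_sub (by omega)]; simp
    rw [← h3]
    exact_mod_cast h
  have h4 : (n : ℝ) = (n : ℝ) ^ (1 - 1 / (2 * L * γ)) * (n : ℝ) ^ (1 / (2 * L * γ)) := by
    rw [← Real.rpow_add hn0]; simp
  have h5 : (a : ℝ) * D ^ (R + 1) ≤ ((K : ℝ) ^ Nat.size R * D *
      (n : ℝ) ^ (1 - 1 / (2 * L * γ))) * D ^ (R + 1) := by
    calc (a : ℝ) * D ^ (R + 1) = (a * D ^ R) * D := by ring
      _ ≤ ((K : ℝ) ^ Nat.size R * n) * D := by gcongr
      _ = ((K : ℝ) ^ Nat.size R * D * (n : ℝ) ^ (1 - 1 / (2 * L * γ))) *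
          (n : ℝ) ^ (1 / (2 * L * γ)) := by
          conv_lhs => rw [h4]
          ring
      _ ≤ _ := by gcongr
  exact le_of_mul_le_mul_right h5 (by positivity)

end Pool.Agent.H268R2.LB
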