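import Pool.Agent.H268R2.LB.Bounds

/-! Group laws as alternating laws. -/

set_option autoImplicit false

open Finset

namespace Pool.Agent.H268R2.LB

theorem altLaw_comm {A : Type*} [Group A] (hA : ∀ a b : A, a * b = b * a) : AltLaw A 3 3 := by
  refine ⟨by norm_num, fun j => ⟨j % 3, Nat.mod_lt _ (by norm_num)⟩, ?_, ?_⟩
  · intro j _ h
    rw [Fin.mk.injEq] at h
    omega
  · intro g
    simp only [List.range_succ, List.range_zero, List.nil_append, List.map_append, List.map_cons,
      List.map_nil, List.prod_append, List.prod_cons, List.prod_nil, mul_one]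
    change g 0 * (g 1)⁻¹ * (g 2 * (g 0)⁻¹) * (g 1 * (g 2)⁻¹) = 1
    have : g 0 * (g 1)⁻¹ * (g 2 * (g 0)⁻¹) * (g 1 * (g 2)⁻¹) =
        (g 0 * (g 0)⁻¹) * (g 1 * (g 1)⁻¹) * (g 2 * (g 2)⁻¹) := by
      have c1 := hA
      calc g 0 * (g 1)⁻¹ * (g 2 * (g 0)⁻¹) * (g 1 * (g 2)⁻¹)
          = (g 2 * (g 0)⁻¹) * (g 0 * (g 1)⁻¹) * (g 1 * (g 2)⁻¹) := by
            rw [c1 (g 0 * (g 1)⁻¹) (g 2 * (g 0)⁻¹)]
        _ = 1 := by group
        _ = _ := by simp
    rw [this]
    simp

theorem altLaw_exponent {A : Type*} [Group A] {m : ℕ} (hm : 1 ≤ m) (hA : ∀ a : A, a ^ m = 1) :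
    AltLaw A 2 m := by
  refine ⟨hm, fun j => ⟨j % 2, Nat.mod_lt _ (by norm_num)⟩, ?_, ?_⟩
  · intro j _ h
    rw [Fin.mk.injEq] at h
    omega
  · intro g
    have : ∀ j : ℕ, g ⟨(2 * j) % 2, Nat.mod_lt _ (by norm_num)⟩ *
        (g ⟨(2 * j + 1) % 2, Nat.mod_lt _ (by norm_num)⟩)⁻¹ = g 0 * (g 1)⁻¹ := by
      intro j
      have e0 : (⟨(2 * j) % 2, Nat.mod_lt _ (by norm_num)⟩ : Fin 2) = 0 := by
        apply Fin.ext
        simp
      have e1 : (⟨(2 * j + 1) % 2, Nat.mod_lt _ (by norm_num)⟩ : Fin 2) = 1 := by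
        apply Fin.ext
        show (2 * j + 1) % 2 = 1
        omega
      rw [e0, e1]
    simp only [this, List.map_const', List.prod_replicate, List.length_range, hA]

/-- a nontrivial law in `r` variables -/
theorem altLaw_word {A : Type*} [Group A] {r : ℕ} (u : FreeGroup (Fin r)) (hu : u ≠ 1)
    (hA : ∀ g : Fin r → A, FreeGroup.lift g u = 1) : AltLaw A (2 * r) u.norm := by
  classical
  set w := u.toWord with hw
  have hlen : u.norm = w.length := rfl
  have hpos : 1 ≤ u.norm := by
    rw [Nat.one_le_iff_ne_zero]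
    intro h
    exact hu (FreeGroup.norm_eq_zero.mp h)
  have hr : 0 < r := by
    have h0 : 0 < w.length := by rw [← hlen]; exact hpos
    exact lt_of_le_of_lt (Nat.zero_le _) (w[0].1).2
  -- letters
  let code : Fin r × Bool → Fin (2 * r) := fun p => ⟨2 * p.1 + (if p.2 then 0 else 1), by
    have := p.1.2
    split_ifs <;> omega⟩
  have hcode : Function.Injective code := by
    rintro ⟨a, b⟩ ⟨c, d⟩ h
    simp only [code, Fin.mk.injEq] at h
    cases b <;> cases d <;> simp at h ⊢ <;> first | (apply Fin.ext; omega) | omega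
  let dflt : Fin r × Bool := (⟨0, hr⟩, true)
  let i : ℕ → Fin (2 * r) := fun k =>
    if k % 2 = 0 then code (w.getD (k / 2) dflt)
    else code ((w.getD (k / 2) dflt).1, !(w.getD (k / 2) dflt).2)
  have hi0 : ∀ j, i (2 * j) = code (w.getD j dflt) := by
    intro j
    simp only [i]
    rw [if_pos (by omega), show 2 * j / 2 = j by omega]
  have hi1 : ∀ j, i (2 * j + 1) = code ((w.getD j dflt).1, !(w.getD j dflt).2) := by
    intro j
    simp only [i]
    rw [if_neg (by omega), show (2 * j + 1) / 2 = j by omega]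
  have hred : ∀ j, j + 1 < w.length →
      (w.getD j dflt).1 = (w.getD (j + 1) dflt).1 → (w.getD j dflt).2 = (w.getD (j + 1) dflt).2 := by
    intro j hj
    have h1 : FreeGroup.IsReduced w := FreeGroup.isReduced_toWord
    have h2 := (List.isChain_iff_getElem.mp h1) j hj
    rw [List.getD_eq_getElem _ _ (by omega), List.getD_eq_getElem _ _ hj]
    exact h2
  refine ⟨hpos, i, ?_, ?_⟩
  · intro k hk
    rcases Nat.even_or_odd' k with ⟨j, hj | hj⟩
    · rw [hj, hi0, hi1]
      intro h
      have := congrArg Prod.snd (hcode h)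
      simp at this
    · have e : k + 1 = 2 * (j + 1) := by omega
      rw [e, hj, hi0, hi1]
      intro h
      have h1 := hcode h
      have h2 : (w.getD j dflt).1 = (w.getD (j + 1) dflt).1 := (Prod.ext_iff.mp h1).1
      have h3 : (!(w.getD j dflt).2) = (w.getD (j + 1) dflt).2 := (Prod.ext_iff.mp h1).2
      rw [← hred j (by omega) h2] at h3
      simp at h3
  · intro g
    let x : Fin r → A := fun t => g (code (t, true)) * (g (code (t, false)))⁻¹
    have h1 := hA x
    rw [← FreeGroup.mk_toWord (x := u), FreeGroup.lift_mk, ← hw] at h1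
    rw [← h1, hlen]
    congr 1
    apply List.ext_getElem
    · simp
    · intro j hj1 hj2
      rw [List.length_map, List.length_range] at hj1
      rw [List.getElem_map, List.getElem_range, List.getElem_map, hi0, hi1,
        List.getD_eq_getElem _ _ hj1]
      rcases h : w[j] with ⟨t, b⟩
      cases b
      · simp [x]
      · simp [x]

end Pool.Agent.H268R2.LB
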