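import Mathlib

/-! Nonbacktracking walks in a graph without short cycles. -/

set_option autoImplicit false

open Finset

namespace Pool.Agent.H268R2.LB

variable {V : Type*} {G : SimpleGraph V}

/-- `NW G n a b c d`: there is a nonbacktracking walk with `n` steps whose first step is `a → b`
and whose last step is `c → d`. -/
inductive NW (G : SimpleGraph V) : ℕ → V → V → V → V → Prop
  | one {a b : V} : G.Adj a b → NW G 1 a b a b
  | step {n : ℕ} {a b c d e : V} : NW G n a b c d → G.Adj d e → c ≠ e → NW G (n + 1) a b d e

theorem NW.pos {n : ℕ} {a b c d : V} (h : NW G n a b c d) : 1 ≤ n := by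
  induction h <;> omega

theorem NW.adj_last {n : ℕ} {a b c d : V} (h : NW G n a b c d) : G.Adj c d := by
  induction h <;> assumption

theorem NW.adj_first {n : ℕ} {a b c d : V} (h : NW G n a b c d) : G.Adj a b := by
  induction h <;> assumption

theorem NW.append {m n : ℕ} {a b c d e x y : V} (h1 : NW G m a b c d) (h2 : NW G n d e x y)
    (hne : c ≠ e) : NW G (m + n) a b x y := by
  induction h2 with
  | one h => exact NW.step h1 h hne
  | step _ hadj hne' ih => exact NW.step (ih h1 hne) hadj hne'

theorem NW.rev {n : ℕ} {a b c d : V} (h : NW G n a b c d) : NW G n d c b a := by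
  induction h with
  | one h => exact NW.one h.symm
  | step _ hadj hne ih =>
    have := NW.append (NW.one hadj.symm) ih hne.symm
    rwa [add_comm] at this

theorem NW.map {f : V → V} (hf : ∀ x y, G.Adj x y → G.Adj (f x) (f y)) (hi : Function.Injective f)
    {n : ℕ} {a b c d : V} (h : NW G n a b c d) : NW G n (f a) (f b) (f c) (f d) := by
  induction h with
  | one h => exact NW.one (hf _ _ h)
  | step _ hadj hne ih => exact NW.step ih (hf _ _ hadj) (fun h => hne (hi h))

/-- the walk as a function -/
theorem NW.exists_fun {n : ℕ} {a b c d : V} (h : NW G n a b c d) :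
    ∃ x : ℕ → V, x 0 = a ∧ x 1 = b ∧ x (n - 1) = c ∧ x n = d ∧
      (∀ i < n, G.Adj (x i) (x (i + 1))) ∧ (∀ i, i + 2 ≤ n → x i ≠ x (i + 2)) := by
  induction h with
  | @one a b h =>
    refine ⟨fun i => if i = 0 then a else b, by simp, by simp, by simp, by simp, ?_, ?_⟩
    · intro i hi
      have : i = 0 := by omega
      subst this
      simpa using h
    · intro i hi
      omega
  | @step n a b c d e h1 hadj hne ih =>
    obtain ⟨x, h0, hx1, hc, hd, hA, hN⟩ := ih
    have hn := h1.pos
    refine ⟨fun i => if i ≤ n then x i else e, by simp [h0], by simp [hn, hx1], by simp [hd],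
      by simp, ?_, ?_⟩
    · intro i hi
      by_cases hin : i + 1 ≤ n
      · have := hA i (by omega)
        simpa [hin, (by omega : i ≤ n)] using this
      · have hi' : i = n := by omega
        subst hi'
        simpa [hd] using hadj
    · intro i hi
      by_cases hin : i + 2 ≤ n
      · have := hN i hin
        simpa [hin, (by omega : i ≤ n)] using this
      · have hi' : i = n - 1 := by omega
        subst hi'
        have : ¬ (n - 1 + 2 ≤ n) := by omega
        simpa [this, hc] using hne

/-- a function walk gives all its segments -/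
theorem NW.of_fun {n : ℕ} {x : ℕ → V} (hA : ∀ i < n, G.Adj (x i) (x (i + 1)))
    (hN : ∀ i, i + 2 ≤ n → x i ≠ x (i + 2)) {i j : ℕ} (hij : i < j) (hj : j ≤ n) :
    NW G (j - i) (x i) (x (i + 1)) (x (j - 1)) (x j) := by
  obtain ⟨k, rfl⟩ : ∃ k, j = i + 1 + k := ⟨j - i - 1, by omega⟩
  clear hij
  induction k with
  | zero =>
    have := NW.one (G := G) (hA i (by omega))
    simpa using this
  | succ k ih =>
    have h1 := ih (by omega)
    have h2 := NW.step h1 (hA (i + 1 + k) (by omega)) (by
      have := hN (i + k) (by omega)
      have e1 : i + 1 + k - 1 = i + k := by omega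
      have e2 : i + 1 + k + 1 = i + k + 2 := by omega
      rw [e1, e2]; exact this)
    have e3 : i + 1 + k - i + 1 = i + 1 + (k + 1) - i := by omega
    have e4 : i + 1 + (k + 1) - 1 = i + 1 + k := by omega
    rw [e3] at h2
    rw [e4]
    exact h2

/-- The walk through the values of a function. -/
def walkOf (G : SimpleGraph V) (y : ℕ → V) :
    ∀ n, (∀ i < n, G.Adj (y i) (y (i + 1))) → G.Walk (y 0) (y n)
  | 0, _ => SimpleGraph.Walk.nil
  | n + 1, h => (walkOf G y n (fun i hi => h i (by omega))).concat (h n (by omega))

theorem walkOf_length (y : ℕ → V) (n : ℕ) (h : ∀ i < n, G.Adj (y i) (y (i + 1))) :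
    (walkOf G y n h).length = n := by
  induction n with
  | zero => rfl
  | succ n ih => simp [walkOf, ih]

theorem walkOf_support (y : ℕ → V) (n : ℕ) (h : ∀ i < n, G.Adj (y i) (y (i + 1))) :
    (walkOf G y n h).support = (List.range (n + 1)).map y := by
  induction n with
  | zero => simp [walkOf]
  | succ n ih =>
    rw [walkOf, SimpleGraph.Walk.support_concat, ih, List.range_succ (n := n + 1)]
    simp

theorem walkOf_edges (y : ℕ → V) (n : ℕ) (h : ∀ i < n, G.Adj (y i) (y (i + 1))) :
    (walkOf G y n h).edges = (List.range n).map (fun k => s(y k, y (k + 1))) := by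
  induction n with
  | zero => simp [walkOf]
  | succ n ih =>
    rw [walkOf, SimpleGraph.Walk.edges_concat, ih, List.range_succ (n := n)]
    simp

/-- a cyclic sequence of distinct vertices is a cycle -/
theorem cycle_of_fun (y : ℕ → V) (d : ℕ) (hd : 3 ≤ d) (h : ∀ i < d, G.Adj (y i) (y (i + 1)))
    (h0 : y 0 = y d) (hinj : ∀ i j, i < d → j < d → y i = y j → i = j) :
    ∃ (v : V) (p : G.Walk v v), p.IsCycle ∧ p.length = d := by
  refine ⟨y 0, (walkOf G y d h).copy rfl h0.symm, ?_, by simp [walkOf_length]⟩
  rw [SimpleGraph.Walk.isCycle_def]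
  have hinj' : ∀ i j, 1 ≤ i → i ≤ d → 1 ≤ j → j ≤ d → y i = y j → i = j := by
    intro i j hi1 hid hj1 hjd hij
    by_cases hi : i = d
    · by_cases hj : j = d
      · omega
      · exfalso
        have := hinj 0 j (by omega) (by omega) (by rw [h0, ← hi, hij])
        omega
    · by_cases hj : j = d
      · exfalso
        have := hinj i 0 (by omega) (by omega) (by rw [hij, hj, h0])
        omega
      · exact hinj i j (by omega) (by omega) hij
  refine ⟨?_, ?_, ?_⟩
  · rw [SimpleGraph.Walk.isTrail_def, SimpleGraph.Walk.edges_copy, walkOf_edges]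
    refine List.Nodup.map_on ?_ List.nodup_range
    intro a ha b hb hab
    rw [List.mem_range] at ha hb
    rw [Sym2.eq_iff] at hab
    rcases hab with ⟨h1, _⟩ | ⟨h1, h2⟩
    · exact hinj a b ha hb h1
    · -- y a = y (b+1), y (a+1) = y b
      by_cases hb' : b + 1 = d
      · rw [hb', ← h0] at h1
        have ha0 := hinj a 0 ha (by omega) h1
        by_cases ha' : a + 1 = d
        · omega
        · have := hinj (a + 1) b (by omega) hb h2
          omega
      · have e1 := hinj a (b + 1) ha (by omega) h1
        by_cases ha' : a + 1 = d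
        · rw [ha', ← h0] at h2
          have := hinj 0 b (by omega) hb h2
          omega
        · have := hinj (a + 1) b (by omega) hb h2
          omega
  · intro hnil
    have := congrArg SimpleGraph.Walk.length hnil
    simp [walkOf_length] at this
    omega
  · rw [SimpleGraph.Walk.support_copy, walkOf_support, List.range_succ_eq_map]
    simp only [List.map_cons, List.map_map, List.tail_cons]
    refine List.Nodup.map_on ?_ List.nodup_range
    intro a ha b hb hab
    rw [List.mem_range] at ha hb
    have := hinj' (a + 1) (b + 1) (by omega) (by omega) (by omega) (by omega) hab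
    omega

/-- No cycle of length at most `M` implies no closed nonbacktracking walk of length at most `M`. -/
theorem no_closed {M : ℕ} (hg : ∀ (v : V) (p : G.Walk v v), p.IsCycle → M < p.length)
    {n : ℕ} {a b c : V} (h : NW G n a b c a) (hn : n ≤ M) : False := by
  classical
  obtain ⟨x, h0, _, _, hxn, hA, hN⟩ := h.exists_fun
  have hpos := h.pos
  have hex : ∃ d, 1 ≤ d ∧ ∃ i, i + d ≤ n ∧ x i = x (i + d) :=
    ⟨n, hpos, 0, by omega, by rw [h0, zero_add, hxn]⟩
  have hspec := Nat.find_spec hex
  have hmin : ∀ m, m < Nat.find hex → ¬ (1 ≤ m ∧ ∃ i, i + m ≤ n ∧ x i = x (i + m)) :=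
    fun m hm => Nat.find_min hex hm
  set d := Nat.find hex with hd
  obtain ⟨hd1, i, hid, hxi⟩ := hspec
  have hd3 : 3 ≤ d := by
    by_contra hlt
    have : d = 1 ∨ d = 2 := by omega
    rcases this with h1 | h2
    · have := hA i (by omega)
      rw [h1] at hxi
      rw [← hxi] at this
      exact G.loopless.irrefl _ this
    · have := hN i (by omega)
      rw [h2] at hxi
      exact this hxi
  obtain ⟨v, p, hp, hlen⟩ := cycle_of_fun (G := G) (fun k => x (i + k)) d hd3
    (fun k hk => by have := hA (i + k) (by omega); simpa [add_assoc] using this)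
    (by simpa using hxi)
    (by
      intro j k hj hk hjk
      by_contra hne
      rcases Nat.lt_or_ge j k with hlt | hge
      · refine hmin (k - j) (by omega) ⟨by omega, i + j, by omega, ?_⟩
        have : i + j + (k - j) = i + k := by omega
        rw [this]; exact hjk
      · refine hmin (j - k) (by omega) ⟨by omega, i + k, by omega, ?_⟩
        have : i + k + (j - k) = i + j := by omega
        rw [this]; exact hjk.symm)
  have := hg v p hp
  omega

end Pool.Agent.H268R2.LB
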